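import Pool.Agent.Helper57.U2.D
import Pool.Agent.Helper57.KNB.KC3

/-!
Row U2 (MP_c75db0): twin states with tests of type B for the runs of two letters. The sources of
the B data are the forms after the first run (`kf`), the targets the forms after further runs
(`kr`). Only for orders at least four.
-/

set_option autoImplicit false
noncomputable section
namespace Pool.Agent.Helper55.U2

open Pool.Agent.Helper81.MIT
open Pool.Agent.Helper86.CX (Hm ev)
open Pool.Agent.Helper6.MONO (V3 mm RMb zw LNI_mm sD)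
open Pool.Agent.Helper21.SUP (GS DG gM)
open Pool.Agent.Helper21.SUP renaming nx → nxs
open Pool.Agent.Helper39.SLT (T4 ML)
open Pool.Agent.Helper6.PRG (gsF giS gsF_giS)
open Pool.Agent.Helper21.KRN (TProg KResT)
open Pool.Agent.Helper57.KNB (BDT covDT srcT srcT_rep)
open Pool.Agent.Helper57.U2
open Complex ComplexConjugate

/-- the numbers used by the B data -/
def idxB (kf kr : ℕ → T4 → ℕ) (s : GS) (T : T4) : ℕ :=
  if T = T4.two then kr (giS s) T4.two else kf (giS s) T4.two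

theorem idxB_two (kf kr : ℕ → T4 → ℕ) (s : GS) : idxB kf kr s T4.two = kr (giS s) T4.two :=
  if_pos rfl

theorem idxB_ne (kf kr : ℕ → T4 → ℕ) (s : GS) {T : T4} (h : T ≠ T4.two) :
    idxB kf kr s T = kf (giS s) T4.two := if_neg h

/-- the numbers do not depend on the orders -/
theorem covDT_repB {α β : Type} {kf kr : ℕ → T4 → ℕ} {p q r : ℕ} {s : GS} (hs : DG s)
    (B : BDT α β) :
    covDT (idxB kf kr) (rep p) (rep q) (rep r) s B = covDT (idxB kf kr) p q r s B := by
  have h1 := Pool.Agent.Helper21.SUP.DG_nx s 2 hs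
  have h2 := Pool.Agent.Helper21.SUP.DG_nx _ 2 h1
  unfold covDT
  simp only [ML_rep p q r hs, ML_rep p q r h1, ML_rep p q r h2, srcT_rep]

/-- a single run of two letters after a first run -/
def covH2 (kf kr : ℕ → T4 → ℕ) (p q r : ℕ) (BE BO : List ℕ) (G : TProg) (s : GS) : Bool :=
  hasRun p q r BE BO G s 2 (kr (giS (nxs s 2)) T4.two) (kf (giS s) T4.two)

/-- THE RUNS OF TWO LETTERS BY TESTS OF TYPE B, orders at least four -/
def covBU (kf kr : ℕ → T4 → ℕ) (a b c : Lb) (BE BO : List ℕ) (G : TProg) : Bool :=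
  (Nat.ble 4 a.rp && (Nat.ble 4 b.rp && Nat.ble 4 c.rp)) &&
  (((List.range 6).all fun i => cov1U 2 T4.two kf kr a.rp b.rp c.rp BE BO G i
    (kf (giS (nxs (gsF i) 2)) T4.two)) &&
  (covH2 kf kr a.rp b.rp c.rp BE BO G (1, 2, 0) && (covH2 kf kr a.rp b.rp c.rp BE BO G (2, 1, 0) &&
    (covH2 kf kr a.rp b.rp c.rp BE BO G (2, 0, 1) &&
      covH2 kf kr a.rp b.rp c.rp BE BO G (1, 0, 2)))))

/-- the hypothesis and the conclusion of the B tests -/
def BIn (p q r : ℕ) (z : ℂ) (K : ℕ → Hm ℝ) (idx : GS → T4 → ℕ) : Prop :=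
  ∀ s, (s = (1, 2, 0) ∨ s = (2, 1, 0) ∨ s = (2, 0, 1) ∨ s = (1, 0, 2)) → ∀ T : T4,
    T.ok (ML p q r s) → T.low (ML p q r s) ≤ 2 → T ≠ T4.two →
    ∀ v, 0 < ev (K (idx s T)) v →
      0 < ev (K (idx (nxs s 2) T4.two)) ((RMb p q r s 2 (zw z)).mulVec v)

def BOut (p q r : ℕ) (z : ℂ) (K : ℕ → Hm ℝ) (idx : GS → T4 → ℕ) : Prop :=
  ∀ s, DG s → ∀ T : T4, T.ok (ML p q r s) → T.low (ML p q r s) ≤ 2 → T ≠ T4.two → ∀ k : ℕ,
    ∀ v, 0 < ev (K (idx s T)) v →
      0 < ev (K (idx (sD s (List.replicate (k + 1) 2)) T4.two))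
        ((gM (RMb p q r) s (List.replicate (k + 1) 2) (zw z)).mulVec v)

variable {p q r : ℕ} {kf kr : ℕ → T4 → ℕ} {BE BO : List ℕ} {G : TProg}

theorem four_of_rep {M : ℕ} (h : Nat.ble 4 (rep M) = true) : 4 ≤ M := by
  have h1 := Nat.le_of_ble_eq_true h
  rcases Nat.lt_or_ge M 10 with h2 | h2
  · rwa [rep_of_lt h2] at h1
  · omega

theorem ML_four (hp : 4 ≤ p) (hq : 4 ≤ q) (hr : 4 ≤ r) {s : GS} (hs : DG s) :
    4 ≤ ML p q r s := by
  obtain ⟨i, j, k⟩ := s
  have h : i ≠ k := fun e => hs.2.2 e.symm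
  show 4 ≤ mm p q r i k
  fin_cases i <;> fin_cases k <;> simp_all [mm]

/-- THE RUNS OF TWO LETTERS -/
theorem hxU_of_B {a b c : Lb} (ha : a.has p) (hb : b.has q) (hc : c.has r) {z : ℂ} (hz : z ≠ 0)
    (hz1 : z + 1 ≠ 0) {K : ℕ → Hm ℝ} (hK : KResT K (kR p q r) z G) (hbr : brOK BE BO = true)
    (h : covBU kf kr a b c BE BO G = true)
    (hB : BIn p q r z K (idxB kf kr) → BOut p q r z K (idxB kf kr)) :
    HXU p q r (zw z) (KU kf kr p q r K) 2 T4.two := by
  unfold covBU at h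
  rw [lb_rp ha, lb_rp hb, lb_rp hc] at h
  simp only [Bool.and_eq_true, List.all_eq_true] at h
  obtain ⟨⟨p4, q4, r4⟩, h1, m6, m7, m8, m9⟩ := h
  have hp4 := four_of_rep p4
  have hq4 := four_of_rep q4
  have hr4 := four_of_rep r4
  have hp : 3 ≤ p := by omega
  have hq : 3 ≤ q := by omega
  have hr : 3 ≤ r := by omega
  have h3m : ∀ s, DG s → 3 ≤ mm p q r s.1 s.2.1 := fun s h => LNI_mm hp hq hr _ _ h.1
  have hR : ∀ {s : GS}, DG s → ∀ {k k' : ℕ},
      hasRun (rep p) (rep q) (rep r) BE BO G s 2 k k' = true → ∀ v : Fin 3 → ℂ,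
        0 < ev (K k') v → 0 < ev (K k) ((RMb p q r s 2 (zw z)).mulVec v) :=
    fun {s} h {k k'} hb v hv => run_ofT hp hq hr hbr hz hz1 hK h le_rfl
      (by have := h3m s h; omega) hb v hv
  have eF : ∀ s, KU kf kr p q r K false s T4.two = K (kf (giS s) T4.two) := by
    intro s
    show K (kE kf p q r s T4.two) = _
    rw [kE_two]
  have eT : ∀ s, KU kf kr p q r K true s T4.two = K (kr (giS s) T4.two) := by
    intro s
    show K (kE kr p q r s T4.two) = _
    rw [kE_two]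
  have hin : BIn p q r z K (idxB kf kr) := by
    have key : ∀ s, DG s → covH2 kf kr (rep p) (rep q) (rep r) BE BO G s = true → ∀ T : T4,
        T ≠ T4.two → ∀ v, 0 < ev (K (idxB kf kr s T)) v →
          0 < ev (K (idxB kf kr (nxs s 2) T4.two)) ((RMb p q r s 2 (zw z)).mulVec v) := by
      intro s hs hc T hT v hv
      rw [idxB_ne kf kr s hT] at hv
      rw [idxB_two]
      unfold covH2 at hc
      exact hR hs hc v hv
    rintro s (rfl | rfl | rfl | rfl) T _ _ hT2 v hv
    · exact key _ ⟨by decide, by decide, by decide⟩ m6 T hT2 v hv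
    · exact key _ ⟨by decide, by decide, by decide⟩ m7 T hT2 v hv
    · exact key _ ⟨by decide, by decide, by decide⟩ m8 T hT2 v hv
    · exact key _ ⟨by decide, by decide, by decide⟩ m9 T hT2 v hv
  have hout := hB hin
  refine hxU_of ?_ ?_
  · intro s hs T i hT hi hl hT2 v hv
    have h2 := h1 (giS s) (List.mem_range.2 (gsF_giS s hs).2)
    rw [(gsF_giS s hs).1] at h2
    rw [eF]
    exact hR hs (fst_of (fun h => Pool.Agent.Helper48.NCT.cut_two h) hp hq hr hs h2 hT hi hl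
      hT2) v hv
  · intro s hs k v hv
    have h4 := ML_four hp4 hq4 hr4 hs
    have hl : T4.three.low (ML p q r s) ≤ 2 := by
      show (if ML p q r s = 3 then 3 else 2) ≤ 2
      rw [if_neg (by omega)]
    rw [eF] at hv
    rw [eT]
    have h5 := hout s hs T4.three trivial hl (by decide) k v (by
      rw [idxB_ne kf kr s (by decide)]
      exact hv)
    rw [idxB_two] at h5
    exact h5

end Pool.Agent.Helper55.U2
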