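import Pool.Agent.Helper55.U2.BA
import Pool.Agent.Helper57.U2.F

/-!
Row U2 (MP_c75db0): near cells with tests of type B and an arbitrary numbering of the forms, from
the certificates at the points to the near cell `TCellU`.
-/

set_option autoImplicit false
set_option exponentiation.threshold 4000
noncomputable section
namespace Pool.Agent.Helper55.U2

open Pool.Agent.Helper81.MIT
open Pool.Agent.Helper86.CX (Hm P9 VR ev Cx andB)
open Pool.Agent.Helper86.CT (LT2 Mo Mc Mq Sv Vx Cls Prog CellT Rw chkDT mk addM uM zM Alg mkCls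
  clsOK xAM xAOK)
open Pool.Agent.Helper90.C75 (Vt)
open Pool.Agent.Helper90.KMT (PT TOK KTab CLT)
open Pool.Agent.Helper6.MONO (V3 RV2 TCert kk mm RMb zw Kp xA fB omS kb kap_enc sD Thr Y0)
open Pool.Agent.Helper6.MONO.QTR (V0 e0 TCell tcell_of_z)
open Pool.Agent.Helper6.MID
open Pool.Agent.Helper6.MTC (RK)
open Pool.Agent.Helper6.PIE (z_ne)
open Pool.Agent.Helper6.PRG (giS)
open Pool.Agent.Helper21.SUP (GS DG gM std)
open Pool.Agent.Helper21.SUP renaming nx → nxs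
open Pool.Agent.Helper21.KCE (andB_tt)
open Pool.Agent.Helper39.NCL (WN wS NA zw_ne)
open Pool.Agent.Helper39.KNF (AD)
open Pool.Agent.Helper39.SLT (T4 ML)
open Pool.Agent.Helper39.NFT
open Pool.Agent.Helper21.KRN (TProg PtR cκ NZ XM expand xOK)
open Pool.Agent.Helper21.KTE (MZ KS wfK CLD chkDT_pt sideT TOK_xA)
open Pool.Agent.Helper48.NCT (IT FTT NDT chkNT chkIT_pos ON)
open Pool.Agent.Helper57.KNB (BND BXT NBT NAB AB BXOK covDT chkNB chkPNB pcNB sideB CAllX FDT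
  FamTOK sideLB sideLB_mem)
open Pool.Agent.Helper57.U2 (TCertU TCellU tcellU_of_z)
open Complex ComplexConjugate

variable {p q r : ℕ} {α β : Type}

/-- the families of type A at a point -/
def FamA (p q r : ℕ) (z : ℂ) (K : ℕ → Hm ℝ) (W0 W1 W2 : WN) : Prop :=
  ∀ s, DG s → giS s < 3 → (wS W0 W1 W2 (giS s)).f = true → ∀ m : ℕ, ∀ v,
    0 < ev (K (wS W0 W1 W2 (giS s)).e) v → 0 < ev (K (wS W0 W1 W2 (giS s)).x)
      ((gM (RMb p q r) s (List.replicate 2 3) (zw z) ^ (m + 1)).mulVec v)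

/-- the inclusions at a point -/
def IncP (K : ℕ → Hm ℝ) (il : List IT) : Prop :=
  ∀ x ∈ il, ∀ y ∈ x.s, ∀ v, 0 < ev (K y.k) v → 0 < ev (K x.k) v

/-- certificates at the points of a cell, from its tests -/
def HCert (p q r : ℕ) (idx : GS → T4 → ℕ) (W0 W1 W2 : WN) (G : TProg) (il : List IT)
    (sl : List ℕ) (le : List LT2) : Prop :=
  ∀ {z : ℂ}, z ≠ 0 → z + 1 ≠ 0 → ∀ {K : ℕ → Hm ℝ}, PtR K (kR p q r) z G sl le → IncP K il →
    FamA p q r z K W0 W1 W2 → (BIn p q r z K idx → BOut p q r z K idx) →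
    ∃ R : Bool → GS → T4 → Set V3, TCertU V0 e0 p q r CBT (zw z) R

section

variable {P v γ δ : Type} {D : ℕ} {lC : α → Vt D → Cx} {lf : α → Vt D → ℂ}
  {mf : (ℕ → ℝ) → β → (ℕ → ℝ) → ℝ} {lp : P → Vt D → P9} {lv : v → Vt D → VR}
  {lg : γ → Vt D → ℕ} {Sp : P → List Bool → Prop} {Sv' : v → List Bool → Prop}
  {Sg : γ → List Bool → Prop} {M : Mc α β P v γ}

/-- the side condition of the B data for the numbering `idx` -/
def sideNX (idx : GS → T4 → ℕ) (p q r : ℕ) (d : BND α β) (A : AB) : Bool :=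
  sideB d A && (covDT idx p q r (0, 1, 2) d.P && covDT idx p q r (0, 2, 1) d.M)

/-- A NEAR CELL WITH B TESTS -/
theorem cell_NBG (hM : Pool.Agent.Helper17.KPT.MK D lC lf mf lp lv lg Sp Sv' Sg M)
    (hn : ∀ (f : ℕ → ℝ) (T : β) (t : ℕ → ℝ), PT D t → (∀ x, 0 ≤ f x) → 0 ≤ mf f T t)
    {ONE : β} (h1 : ON mf ONE) {F : FTT α β δ} {kx ke : δ → ℕ} {SD : δ → Prop}
    (hF : FamOKT D lf mf F kx ke SD) {FB : BXT α β} (hFB : BXOK D lf mf FB) (hp : 3 ≤ p)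
    (hq : 3 ≤ q) (hr : 3 ≤ r) {x0 : ℝ} (x1 : -2 < x0) (x2 : x0 ≤ 2)
    (t1 : xA p q r ≤ x0) (t2 : xA q r p ≤ x0) (t3 : xA r p q ≤ x0) (tB : fB p q r x0 = 0)
    {W0 W1 W2 : WN} {G : TProg} {il : List IT} {sl : List ℕ}
    {le : List LT2} {idx : GS → T4 → ℕ} (hm : HCert p q r idx W0 W1 W2 G il sl le)
    {S : Sv P} {W : Vx β} {y : ℕ → ℕ → α} {k0 k1 k2 : Mo α} {C : Cls α} {Ge : Prog v}
    {X : Mo α} (hXr : ∀ v, (lf X.v v).im = 0) {d : NBT α β δ} (s0 : SdW kx ke SD W0 d.n.D0)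
    (s1 : SdW kx ke SD W1 d.n.D1) (s2 : SdW kx ke SD W2 d.n.D2) {A : AB}
    (sB : sideNX idx p q r d.B A = true)
    (H : chkNB M S W y F FB W0.f W1.f W2.f k0 k1 k2 C Ge X sl le ONE il d = true)
    (hD : chkDT M S W y C Ge X sl le d.n.c = true → CAllX D lf mf M.A p q r x0 G sl le k0 k1 k2 C
      X (addM M.A X (mk M.A (y d.n.c.ya d.n.c.yb) (nat_lit 0))) d.n.c) :
    TCellU p q r x0 ((d.n.c.ya : ℝ) / 2 ^ 48) ((d.n.c.yb : ℝ) / 2 ^ 48) := by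
  obtain ⟨H, HB⟩ := andB_tt H
  obtain ⟨H1, H⟩ := andB_tt H
  obtain ⟨H2, H3⟩ := andB_tt H
  unfold sideNX at sB
  rw [Bool.and_eq_true, Bool.and_eq_true] at sB
  obtain ⟨sB, cP, cM⟩ := sB
  refine tcellU_of_z x1 x2 CBT ?_
  intro z y hy0 hya hyb hz _ _ hui hzx
  obtain ⟨t, h, hX⟩ := hD H1 hy0 hya hyb hz hui hzx
  have hI := chkIT_pos hM hn h1 H2 h.pt
  have hz1 := z_ne x1 hzx
  have hN : NZ (kap3 p q r) z := by
    have h2 := h.P.nz
    rwa [cκ_kR] at h2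
  have hfam := fam_ptT hF hp hq hr x1 t1 t2 t3 h.pt hy0 hz hzx hN h.a0 h.a1 h.a2 h.C h.u h.z s0 s1 s2
    H3
  obtain ⟨hw1, hw2, hzw⟩ := zw_ne hz hz1
  have hom : ∀ s, DG s → omS p q r s (zw z) ≠ 0 := by
    intro s h
    rw [oZ_omS hz hz1 s h]
    exact nz_ne hN _
  exact hm hz hz1 h.P hI hfam
    (hFB h.pt hp hq hr hom hzw hz hui x1 x2 hy0 hyb hzx tB h.a0 h.a1 h.a2 rfl rfl rfl h.C hX hXr
      h.u h.z HB sB cP cM)

theorem pcNB_U {ε : Type} {f : NBT α β δ → Bool} {g : NBT α β δ → ε → Bool} {a b c : ℕ}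
    {x0 : ℝ} {e : ℕ} :
    ∀ (l : List (NBT α β δ)) (d : NBT α β δ) (y : ℕ), pcNB f e (d :: l) y = true →
      (∀ u ∈ d :: l, ∃ A, g u A = true) →
      (∀ u ∈ d :: l, ∀ A, g u A = true → f u = true →
        TCellU a b c x0 ((u.n.c.ya : ℝ) / 2 ^ 48) ((u.n.c.yb : ℝ) / 2 ^ 48)) →
      TCellU a b c x0 ((y : ℝ) / 2 ^ 48) ((e : ℝ) / 2 ^ 48) := by
  intro l
  induction l with
  | nil =>
    intro d y H hA hf
    obtain ⟨h1, H⟩ := andB_tt H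
    obtain ⟨-, H⟩ := andB_tt H
    obtain ⟨h3, h4⟩ := andB_tt H
    have e1 : y = d.n.c.ya := Nat.eq_of_beq_eq_true h1
    have e2 : d.n.c.yb = e := Nat.eq_of_beq_eq_true h4
    obtain ⟨A, hA'⟩ := hA d List.mem_cons_self
    rw [e1, ← e2]
    exact hf d List.mem_cons_self A hA' h3
  | cons d' l ih =>
    intro d y H hA hf
    obtain ⟨h1, H⟩ := andB_tt H
    obtain ⟨-, H⟩ := andB_tt H
    obtain ⟨h3, h4⟩ := andB_tt H
    have e1 : y = d.n.c.ya := Nat.eq_of_beq_eq_true h1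
    obtain ⟨A, hA'⟩ := hA d List.mem_cons_self
    rw [e1]
    exact (hf d List.mem_cons_self A hA' h3).join (ih d' d.n.c.yb h4
      (fun u hu => hA u (List.mem_cons_of_mem _ hu)) fun u hu => hf u (List.mem_cons_of_mem _ hu))

end

/-- all side conditions of a near cell, twin states -/
def sideNBU (kf kr : ℕ → T4 → ℕ) (a b c : Lb) (W0 W1 W2 : WN) (sc : CellT α β → Bool)
    (d : NBT α β (FDT β)) (A : NAB) : Bool :=
  sideNT W0 W1 W2 sc d.n A.w && sideNX (idxB kf kr) a.rp b.rp c.rp d.B A.b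

section

variable {P v γ : Type} {D : ℕ} {lC : α → Vt D → Cx} {lf : α → Vt D → ℂ}
  {mf : (ℕ → ℝ) → β → (ℕ → ℝ) → ℝ} {lp : P → Vt D → P9} {lv : v → Vt D → VR}
  {lg : γ → Vt D → ℕ} {Sp : P → List Bool → Prop} {Sv' : v → List Bool → Prop}
  {Sg : γ → List Bool → Prop} {M : Mc α β P v γ} {kf kr : ℕ → T4 → ℕ}

/-- A LIST OF NEAR CELLS WITH B TESTS -/
theorem list_NBU (hM : Pool.Agent.Helper17.KPT.MK D lC lf mf lp lv lg Sp Sv' Sg M)
    (hn : ∀ (f : ℕ → ℝ) (T : β) (t : ℕ → ℝ), PT D t → (∀ x, 0 ≤ f x) → 0 ≤ mf f T t)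
    {ONE : β} (h1 : ON mf ONE) {F : FTT α β (FDT β)} (hF : FamTOK D lf mf F) {FB : BXT α β}
    (hFB : BXOK D lf mf FB) (hp : 3 ≤ p) (hq : 3 ≤ q) (hr : 3 ≤ r) {a b c : Lb}
    (ha : a.has p) (hb : b.has q) (hc : c.has r) {x0 : ℝ} (x1 : -2 < x0) (x2 : x0 ≤ 2)
    (t1 : xA p q r ≤ x0) (t2 : xA q r p ≤ x0) (t3 : xA r p q ≤ x0) (tB : fB p q r x0 = 0)
    {W0 W1 W2 : WN} {G : TProg} {il : List IT} {sl : List ℕ}
    {le : List LT2} (hm : HCert p q r (idxB kf kr) W0 W1 W2 G il sl le)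
    {S : Sv P} {W : Vx β} {Y : ℕ → ℕ → α} {k0 k1 k2 : Mo α} {C : Cls α} {Ge : Prog v}
    {X : Mo α} (hXr : ∀ v, (lf X.v v).im = 0) {f0 f1 f2 : Bool} (g0 : f0 = W0.f) (g1 : f1 = W1.f)
    (g2 : f2 = W2.f) {sc : CellT α β → Bool} {l : List (NBT α β (FDT β))} (hl : l ≠ [])
    {As : List NAB} (hs : sideLB (sideNBU kf kr a b c W0 W1 W2 sc) l As = true)
    (hD : ∀ d : CellT α β, sc d = true → chkDT M S W Y C Ge X sl le d = true →
      CAllX D lf mf M.A p q r x0 G sl le k0 k1 k2 C X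
        (addM M.A X (mk M.A (Y d.ya d.yb) (nat_lit 0))) d) {y e : ℕ}
    (H : chkPNB M S W Y F FB f0 f1 f2 k0 k1 k2 C Ge X sl le ONE il e l y = true) :
    TCellU p q r x0 ((y : ℝ) / 2 ^ 48) ((e : ℝ) / 2 ^ 48) := by
  subst g0
  subst g1
  subst g2
  obtain ⟨d, l, rfl⟩ := List.exists_cons_of_ne_nil hl
  refine pcNB_U l d y H (sideLB_mem hs) fun u _ A hA hc' => ?_
  unfold sideNBU sideNT at hA
  simp only [Bool.and_eq_true] at hA
  obtain ⟨⟨h0, h2, h3, h4⟩, h5⟩ := hA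
  have h6 : sideNX (idxB kf kr) p q r u.B A.b = true := by
    unfold sideNX at h5 ⊢
    rw [lb_rp ha, lb_rp hb, lb_rp hc, covDT_repB ⟨by decide, by decide, by decide⟩,
      covDT_repB ⟨by decide, by decide, by decide⟩] at h5
    exact h5
  exact cell_NBG hM hn h1 (famOKT_of hF) hFB hp hq hr x1 x2 t1 t2 t3 tB hm hXr
    (sideWT_iff h2) (sideWT_iff h3) (sideWT_iff h4) h6 hc' (fun hd => hD u.n.c h0 hd)

end

section

variable {P v γ : Type} {D : ℕ} {lC : α → Vt (D + 1) → Cx} {lf : α → Vt (D + 1) → ℂ}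
  {mf : (ℕ → ℝ) → β → (ℕ → ℝ) → ℝ} {lp : P → Vt (D + 1) → P9} {lv : v → Vt (D + 1) → VR}
  {lg : γ → Vt (D + 1) → ℕ} {Sa : α → List Bool → Prop} {Sp : P → List Bool → Prop}
  {Sv' : v → List Bool → Prop} {Sg : γ → List Bool → Prop} {M : Mc α β P v γ}
  {S : Sv P} {W : Vx β} {Y : ℕ → ℕ → α} {qd : ℕ → Cx → Cx → Cx → α} {rt : α → Bool}
  {kf kr : ℕ → T4 → ℕ}

/-- A MODULE OF NEAR CELLS WITH B TESTS, twin states, line `x_0 = x_B` -/
theorem nearT_BG {X : XM α v}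
    (hZ : MZ D lC lf mf lp lv lg Sa Sp Sv' Sg M X.Q X.c X.r S W Y qd rt) {ONE : β}
    (h1 : ON mf ONE) {F : FTT α β (FDT β)} (hF : FamTOK (D + 1) lf mf F) {FB : BXT α β}
    (hFB : BXOK (D + 1) lf mf FB) {a b c : Lb} (ha : a.has p) (hb : b.has q) (hc : c.has r)
    {s0 s1 s2 : KS} {Xo : Mo α} {x0 : ℝ} (hC : CLD D lf M qd rt X Xo s0 s1 s2 (kR p q r) x0)
    (x1 : -2 < x0) (x2 : x0 ≤ 2) (t1 : xA p q r ≤ x0) (t2 : xA q r p ≤ x0) (t3 : xA r p q ≤ x0)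
    (tB : fB p q r x0 = 0) {W0 W1 W2 : WN} {G : TProg} {il : List IT}
    {sl : List ℕ} {le : List LT2} (hm : HCert p q r (idxB kf kr) W0 W1 W2 G il sl le)
    {f0 f1 f2 : Bool} (g0 : f0 = W0.f) (g1 : f1 = W1.f) (g2 : f2 = W2.f)
    {l : List (NBT α β (FDT β))} (hl : l ≠ []) {As : List NAB}
    (hs : sideLB (sideNBU kf kr a b c W0 W1 W2 (sideT W le)) l As = true) {y e : ℕ}
    (H : chkPNB M S W Y F FB f0 f1 f2 X.k0 X.k1 X.k2 (mkCls M.A X.k0 X.k1 X.k2) (expand X G)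
      Xo sl le ONE il e l y = true) :
    TCellU p q r x0 ((y : ℝ) / 2 ^ 48) ((e : ℝ) / 2 ^ 48) := by
  refine list_NBU hZ.m.k hZ.w.pos h1 hF hFB (has_ge ha) (has_ge hb) (has_ge hc) ha hb hc x1 x2 t1
    t2 t3 tB hm (hZ.t _ hC.rt) g0 g1 g2 hl hs ?_ H
  intro d hd hk z h hh0 hha hhb hz hui hzx
  obtain ⟨t, b1, b2, b3, b4, b5, b6, b7, b8⟩ := chkDT_pt hZ hC hd hk (h := h)
    (by rw [div_le_iff₀ (by positivity)] at hha; linarith)
    (by rw [le_div_iff₀ (by positivity)] at hhb; linarith) hz hzx hui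
  have b9 := hC.x0 t b1 b3 b4 b5
  rw [cκ_kR] at b6
  exact ⟨t, ⟨b1, b2, b3, b4, b5, b6, b7, b8⟩, b9⟩

end

end Pool.Agent.Helper55.U2
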