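import Pool.Agent.Helper55.U2.BB

/-!
Row U2 (MP_c75db0): near cells with tests of type B and twin states: the Boolean conditions of a
file, modules on a constant line and on the line `x_B` (sign test).
-/

set_option autoImplicit false
set_option exponentiation.threshold 4000
noncomputable section
namespace Pool.Agent.Helper55.U2

open Pool.Agent.Helper81.MIT
open Pool.Agent.Helper86.CX (Hm P9 VR ev Cx andB)
open Pool.Agent.Helper86.CT (LT2 Mo Mc Mq Sv Vx Cls Prog CellT Rw chkDT mk addM uM zM Alg mkCls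
  clsOK)
open Pool.Agent.Helper90.C75 (Vt)
open Pool.Agent.Helper86.C75 (Z)
open Pool.Agent.Helper90.KMO (zv)
open Pool.Agent.Helper90.KMT (PT TOK KTab CLT)
open Pool.Agent.Helper6.MONO (kk Kp xA fB Thr)
open Pool.Agent.Helper39.NCL (WN NA)
open Pool.Agent.Helper39.NFT
open Pool.Agent.Helper39.SLT (T4)
open Pool.Agent.Helper21.KRN (TProg PtR XM expand xOK cκ)
open Pool.Agent.Helper21.KTE (MZ KS wfK CLD chkDT_pt sideT TOK_xC)
open Pool.Agent.Helper48.NCT (IT FTT NDT ON)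
open Pool.Agent.Helper57.KNB (FDT FamTOK NBT NAB BXT BXOK chkPNB sideLB)
open Pool.Agent.Helper57.U2 (TCellU modU0 wallU chnU KU HXU modU0_br hA_of_wal hA_of_chn tcertU_pt)
open Pool.Agent.Helper21.XB (xBp thr_xBp XQD modXQ cld_Q xQM fB_xBp)
open Complex ComplexConjugate

variable {p q r : ℕ} {kf kr : ℕ → T4 → ℕ}

/-- walls (families or single runs), tests of type B -/
def modUB (kf kr : ℕ → T4 → ℕ) (a b c : Lb) (W0 W1 W2 : WN) (BE BO : List ℕ)
    (G : TProg) (il : List IT) (sl : List ℕ) (le : List LT2) : Bool :=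
  modU0 kf kr a b c BE BO G sl le && (wallU kf kr a b c W0 W1 W2 BE BO G il &&
    covBU kf kr a b c BE BO G)

/-- a chain for the runs of three letters, tests of type B -/
def modUCB (kf kr : ℕ → T4 → ℕ) (a b c : Lb) (cA : Ch) (BE BO : List ℕ)
    (G : TProg) (il : List IT) (sl : List ℕ) (le : List LT2) : Bool :=
  modU0 kf kr a b c BE BO G sl le && (chnU 3 T4.three kf kr a b c cA BE BO G il &&
    covBU kf kr a b c BE BO G)

section

variable {G : TProg} {sl : List ℕ} {le : List LT2} {a b c : Lb} {BE BO : List ℕ} {il : List IT}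
  {W0 W1 W2 : WN}

/-- walls, tests of type B -/
theorem hcert_B (ha : a.has p) (hb : b.has q) (hc : c.has r)
    (hm : modUB kf kr a b c W0 W1 W2 BE BO G il sl le = true) :
    HCert p q r (idxB kf kr) W0 W1 W2 G il sl le := by
  intro z hz hz1 K hP hI hfam hB
  unfold modUB at hm
  simp only [Bool.and_eq_true] at hm
  obtain ⟨h0, hW, hC⟩ := hm
  exact ⟨_, tcertU_pt ha hb hc hz hz1 hP h0
    (hA_of_wal ha hb hc hz hz1 hP (modU0_br h0) hW hI hfam)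
    (hxU_of_B ha hb hc hz hz1 hP.res (modU0_br h0) hC hB)⟩

/-- a chain, tests of type B -/
theorem hcert_CB (ha : a.has p) (hb : b.has q) (hc : c.has r) {cA : Ch}
    (hm : modUCB kf kr a b c cA BE BO G il sl le = true) :
    HCert p q r (idxB kf kr) W0 W1 W2 G il sl le := by
  intro z hz hz1 K hP hI _ hB
  unfold modUCB at hm
  simp only [Bool.and_eq_true] at hm
  obtain ⟨h0, hA, hC⟩ := hm
  exact ⟨_, tcertU_pt ha hb hc hz hz1 hP h0
    (hA_of_chn ha hb hc hz hz1 hP (modU0_br h0) hA hI)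
    (hxU_of_B ha hb hc hz hz1 hP.res (modU0_br h0) hC hB)⟩

end

section

variable {α β P v γ : Type} {D : ℕ} {lC : α → Vt (D + 1) → Cx} {lf : α → Vt (D + 1) → ℂ}
  {mf : (ℕ → ℝ) → β → (ℕ → ℝ) → ℝ} {lp : P → Vt (D + 1) → P9} {lv : v → Vt (D + 1) → VR}
  {lg : γ → Vt (D + 1) → ℕ} {Sa : α → List Bool → Prop} {Sp : P → List Bool → Prop}
  {Sv' : v → List Bool → Prop} {Sg : γ → List Bool → Prop} {M : Mc α β P v γ}
  {S : Sv P} {W : Vx β} {Y : ℕ → ℕ → α} {qd : ℕ → Cx → Cx → Cx → α} {rt : α → Bool}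

/-- constant line: tests of type B, twin states, any certificate of the points -/
theorem nearU_EBG {X : XM α v}
    (hZ : MZ D lC lf mf lp lv lg Sa Sp Sv' Sg M X.Q X.c X.r S W Y qd rt) {ONE : β}
    (h1 : ON mf ONE) {F : FTT α β (FDT β)} (hF : FamTOK (D + 1) lf mf F) {FB : BXT α β}
    (hFB : BXOK (D + 1) lf mf FB) {a b c : Lb}
    (ha : a.has p) (hb : b.has q) (hc : c.has r)
    {s0 s1 s2 : KS} {Xz : Z} {n : ℕ} (hx : modXE M rt D X Xz n s0 s1 s2 a b c = true)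
    (e0 : X.k0 = s0.mo M.A qd) (e1 : X.k1 = s1.mo M.A qd) (e2 : X.k2 = s2.mo M.A qd) {x0 : ℝ}
    (hX : |2 ^ 48 * x0 - (zv Xz : ℝ)| ≤ (n : ℝ)) (hT : Thr p q r x0) (tB : fB p q r x0 = 0)
    {W0 W1 W2 : WN} {G : TProg} {il : List IT} {sl : List ℕ} {le : List LT2}
    (hm : HCert p q r (idxB kf kr) W0 W1 W2 G il sl le)
    {f0 f1 f2 : Bool} (g0 : f0 = W0.f) (g1 : f1 = W1.f) (g2 : f2 = W2.f)
    {l : List (NBT α β (FDT β))} (hl : l ≠ []) {As : List NAB}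
    (hs : sideLB (sideNBU kf kr a b c W0 W1 W2 (sideT W le)) l As = true) {y e : ℕ}
    (H : chkPNB M S W Y F FB f0 f1 f2 X.k0 X.k1 X.k2 (mkCls M.A X.k0 X.k1 X.k2) (expand X G)
      (cX M.A Xz n) sl le ONE il e l y = true) :
    TCellU p q r x0 ((y : ℝ) / 2 ^ 48) ((e : ℝ) / 2 ^ 48) := by
  have hC := cld_E (X := X) hZ ha hb hc hx e0 e1 e2 hX
  exact nearT_BG hZ h1 hF hFB ha hb hc hC hT.gt hT.le hT.A1 hT.A2 hT.A3 tB hm g0 g1 g2 hl hs H

/-- constant line: walls, tests of type B, twin states -/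
theorem nearU_EB {X : XM α v}
    (hZ : MZ D lC lf mf lp lv lg Sa Sp Sv' Sg M X.Q X.c X.r S W Y qd rt) {ONE : β}
    (h1 : ON mf ONE) {F : FTT α β (FDT β)} (hF : FamTOK (D + 1) lf mf F) {FB : BXT α β}
    (hFB : BXOK (D + 1) lf mf FB) {a b c : Lb}
    (ha : a.has p) (hb : b.has q) (hc : c.has r)
    {s0 s1 s2 : KS} {Xz : Z} {n : ℕ} (hx : modXE M rt D X Xz n s0 s1 s2 a b c = true)
    (e0 : X.k0 = s0.mo M.A qd) (e1 : X.k1 = s1.mo M.A qd) (e2 : X.k2 = s2.mo M.A qd) {x0 : ℝ}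
    (hX : |2 ^ 48 * x0 - (zv Xz : ℝ)| ≤ (n : ℝ)) (hT : Thr p q r x0) (tB : fB p q r x0 = 0)
    {W0 W1 W2 : WN} {BE BO : List ℕ} {G : TProg} {il : List IT} {sl : List ℕ} {le : List LT2}
    (hm : modUB kf kr a b c W0 W1 W2 BE BO G il sl le = true)
    {f0 f1 f2 : Bool} (g0 : f0 = W0.f) (g1 : f1 = W1.f) (g2 : f2 = W2.f)
    {l : List (NBT α β (FDT β))} (hl : l ≠ []) {As : List NAB}
    (hs : sideLB (sideNBU kf kr a b c W0 W1 W2 (sideT W le)) l As = true) {y e : ℕ}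
    (H : chkPNB M S W Y F FB f0 f1 f2 X.k0 X.k1 X.k2 (mkCls M.A X.k0 X.k1 X.k2) (expand X G)
      (cX M.A Xz n) sl le ONE il e l y = true) :
    TCellU p q r x0 ((y : ℝ) / 2 ^ 48) ((e : ℝ) / 2 ^ 48) :=
  nearU_EBG hZ h1 hF hFB ha hb hc hx e0 e1 e2 hX hT tB (hcert_B ha hb hc hm) g0 g1 g2 hl hs H

/-- constant line: a chain for the runs of three letters, tests of type B, twin states -/
theorem nearU_ECB {X : XM α v}
    (hZ : MZ D lC lf mf lp lv lg Sa Sp Sv' Sg M X.Q X.c X.r S W Y qd rt) {ONE : β}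
    (h1 : ON mf ONE) {F : FTT α β (FDT β)} (hF : FamTOK (D + 1) lf mf F) {FB : BXT α β}
    (hFB : BXOK (D + 1) lf mf FB) {a b c : Lb}
    (ha : a.has p) (hb : b.has q) (hc : c.has r)
    {s0 s1 s2 : KS} {Xz : Z} {n : ℕ} (hx : modXE M rt D X Xz n s0 s1 s2 a b c = true)
    (e0 : X.k0 = s0.mo M.A qd) (e1 : X.k1 = s1.mo M.A qd) (e2 : X.k2 = s2.mo M.A qd) {x0 : ℝ}
    (hX : |2 ^ 48 * x0 - (zv Xz : ℝ)| ≤ (n : ℝ)) (hT : Thr p q r x0) (tB : fB p q r x0 = 0)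
    {W0 W1 W2 : WN} {cA : Ch} {BE BO : List ℕ} {G : TProg} {il : List IT} {sl : List ℕ}
    {le : List LT2} (hm : modUCB kf kr a b c cA BE BO G il sl le = true)
    {f0 f1 f2 : Bool} (g0 : f0 = W0.f) (g1 : f1 = W1.f) (g2 : f2 = W2.f)
    {l : List (NBT α β (FDT β))} (hl : l ≠ []) {As : List NAB}
    (hs : sideLB (sideNBU kf kr a b c W0 W1 W2 (sideT W le)) l As = true) {y e : ℕ}
    (H : chkPNB M S W Y F FB f0 f1 f2 X.k0 X.k1 X.k2 (mkCls M.A X.k0 X.k1 X.k2) (expand X G)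
      (cX M.A Xz n) sl le ONE il e l y = true) :
    TCellU p q r x0 ((y : ℝ) / 2 ^ 48) ((e : ℝ) / 2 ^ 48) :=
  nearU_EBG hZ h1 hF hFB ha hb hc hx e0 e1 e2 hX hT tB (hcert_CB ha hb hc hm) g0 g1 g2 hl hs H

/-- line `x_B` (sign test), tests of type B, twin states, any certificate of the points -/
theorem nearU_xQBG {X : XM α v}
    (hZ : MZ D lC lf mf lp lv lg Sa Sp Sv' Sg M X.Q X.c X.r S W Y qd rt) (hD : D ≤ 3) {ONE : β}
    (h1 : ON mf ONE) {F : FTT α β (FDT β)} (hF : FamTOK (D + 1) lf mf F) {FB : BXT α β}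
    (hFB : BXOK (D + 1) lf mf FB) {a b c : Lb}
    (ha : a.has p) (hb : b.has q) (hc : c.has r) (hp : 14 ≤ p) (hq : 14 ≤ q) (hr : 14 ≤ r)
    {s0 s1 s2 : KS} {C0 C : α} {n m : ℕ} {Z : Fin 3 → Fin 3 → Fin 3 → ℤ}
    (hX : XQD D lf M.A qd rt C0 n C m s0 s1 s2 Z)
    (hx : modXQ M rt D X C m s0 s1 s2 a b c = true)
    (e0 : X.k0 = s0.mo M.A qd) (e1 : X.k1 = s1.mo M.A qd) (e2 : X.k2 = s2.mo M.A qd)
    {W0 W1 W2 : WN} {G : TProg} {il : List IT} {sl : List ℕ} {le : List LT2}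
    (hm : HCert p q r (idxB kf kr) W0 W1 W2 G il sl le)
    {f0 f1 f2 : Bool} (g0 : f0 = W0.f) (g1 : f1 = W1.f) (g2 : f2 = W2.f)
    {l : List (NBT α β (FDT β))} (hl : l ≠ []) {As : List NAB}
    (hs : sideLB (sideNBU kf kr a b c W0 W1 W2 (sideT W le)) l As = true) {y e : ℕ}
    (H : chkPNB M S W Y F FB f0 f1 f2 X.k0 X.k1 X.k2 (mkCls M.A X.k0 X.k1 X.k2) (expand X G)
      (xQM M.A C m) sl le ONE il e l y = true) :
    TCellU p q r (xBp p q r) ((y : ℝ) / 2 ^ 48) ((e : ℝ) / 2 ^ 48) := by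
  have hC := cld_Q (X := X) hZ hD ha hb hc hp hq hr hX hx e0 e1 e2
  have hT := thr_xBp hp hq hr
  exact nearT_BG hZ h1 hF hFB ha hb hc hC hT.gt hT.le hT.A1 hT.A2 hT.A3
    (fB_xBp hp hq hr) hm g0 g1 g2 hl hs H

end

end Pool.Agent.Helper55.U2
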